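import Pool.Agent.Q28.TM.Stm

/-!
# Job KAP of project TM (helper28)
-/

set_option autoImplicit false

namespace Pool.Agent.Q87.TM

open Pool.Agent.Q28.TM

/-- the submodule of the functions with `JJ T F` -/
noncomputable def jjSub {X W : Type} (K : Type) [Field K] (T : X → Set W) (F : Finset W) :
    Submodule K (X → K) where
  carrier := {r | JJ T F r}
  zero_mem' := ⟨∅, by simp, by simp⟩
  add_mem' := by
    classical
    rintro r s ⟨H1, h1, h1'⟩ ⟨H2, h2, h2'⟩
    refine ⟨H1 ∪ H2, ?_, ?_⟩
    · intro t ht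
      rcases Finset.mem_union.mp ht with ht | ht
      · exact h1 t ht
      · exact h2 t ht
    · intro x hx
      by_cases hr : r x = 0
      · have hs : s x ≠ 0 := by
          intro hs
          exact hx (by simp [hr, hs])
        obtain ⟨h, t, ht, ht'⟩ := h2' x hs
        exact ⟨h, t, Finset.mem_union_right _ ht, ht'⟩
      · obtain ⟨h, t, ht, ht'⟩ := h1' x hr
        exact ⟨h, t, Finset.mem_union_left _ ht, ht'⟩
  smul_mem' := by
    rintro c r ⟨H, h, h'⟩
    refine ⟨H, h, ?_⟩
    intro x hx
    refine h' x ?_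
    intro hr
    exact hx (by simp [hr])

theorem t_KAP : P_KAP := by
  intro X W K _ T
  classical
  have key : ∀ F : Finset W, ∃ k : (X → K) →ₗ[K] (X → K),
      (∀ u, JJ T F (ind T F u - k u)) ∧ ∀ u, JJ T F (ind T F u) → k u = 0 := by
    intro F
    obtain ⟨s, hs⟩ := LinearMap.exists_rightInverse_of_surjective (jjSub K T F).mkQ
      (Submodule.range_mkQ _)
    refine ⟨s ∘ₗ (jjSub K T F).mkQ ∘ₗ ind T F, ?_, ?_⟩
    · intro u
      have h1 : (jjSub K T F).mkQ (ind T F u - s ((jjSub K T F).mkQ (ind T F u))) = 0 := by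
        rw [map_sub, ← LinearMap.comp_apply (jjSub K T F).mkQ s, hs]
        simp
      have h2 : ind T F u - s ((jjSub K T F).mkQ (ind T F u)) ∈ jjSub K T F := by
        rwa [Submodule.mkQ_apply, Submodule.Quotient.mk_eq_zero] at h1
      exact h2
    · intro u hu
      have h1 : (jjSub K T F).mkQ (ind T F u) = 0 := by
        rw [Submodule.mkQ_apply, Submodule.Quotient.mk_eq_zero]
        exact hu
      simp [LinearMap.comp_apply, h1]
  choose κ hκ using key
  exact ⟨κ, hκ⟩

end Pool.Agent.Q87.TM
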