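import Pool.Agent.Q28.TM.Stm

/-!
# Job LEMN of project TM (helper28)
-/

set_option autoImplicit false

namespace Pool.Agent.Q87.TM

open Pool.Agent.Q28.TM

theorem mem_iSup_finsupp {I M : Type} [AddCommGroup M] (C : I → AddSubgroup M) {c : M}
    (hc : c ∈ ⨆ i, C i) : ∃ g : I →₀ M, (∀ i, g i ∈ C i) ∧ g.sum (fun _ v => v) = c := by
  classical
  refine AddSubgroup.iSup_induction C
    (C := fun c => ∃ g : I →₀ M, (∀ i, g i ∈ C i) ∧ g.sum (fun _ v => v) = c) hc ?_ ?_ ?_
  · intro i x hx
    refine ⟨Finsupp.single i x, ?_, by simp⟩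
    intro j
    by_cases h : i = j
    · subst h
      simpa using hx
    · rw [Finsupp.single_eq_of_ne (Ne.symm h)]
      exact (C j).zero_mem
  · exact ⟨0, fun i => (C i).zero_mem, by simp⟩
  · rintro x y ⟨g, hg, rfl⟩ ⟨g', hg', rfl⟩
    refine ⟨g + g', fun i => (C i).add_mem (hg i) (hg' i), ?_⟩
    rw [Finsupp.sum_add_index'] <;> simp

/-- a linear map which is the identity on `F` and zero on `L` -/
theorem exists_phi {k W : Type} [Field k] [AddCommGroup W] [Module k W] (F L : Submodule k W)
    (h : ∀ t ∈ F, t ∈ L → t = 0) :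
    ∃ φ : W →ₗ[k] W, (∀ t ∈ F, φ t = t) ∧ ∀ t ∈ L, φ t = 0 := by
  have hk : LinearMap.ker (L.mkQ ∘ₗ F.subtype) = ⊥ := by
    rw [LinearMap.ker_eq_bot']
    intro m hm
    have h1 : (m : W) ∈ L := by
      rw [LinearMap.comp_apply, Submodule.mkQ_apply, Submodule.Quotient.mk_eq_zero] at hm
      exact hm
    exact Subtype.ext (h m m.2 h1)
  obtain ⟨g, hg⟩ := LinearMap.exists_leftInverse_of_injective _ hk
  refine ⟨F.subtype ∘ₗ g ∘ₗ L.mkQ, ?_, ?_⟩
  · intro t ht
    have h1 := LinearMap.congr_fun hg ⟨t, ht⟩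
    simp only [LinearMap.comp_apply, LinearMap.id_apply] at h1 ⊢
    have h2 : g (L.mkQ t) = ⟨t, ht⟩ := h1
    rw [h2]
    rfl
  · intro t ht
    have h1 : L.mkQ t = 0 := by
      rw [Submodule.mkQ_apply, Submodule.Quotient.mk_eq_zero]
      exact ht
    simp only [LinearMap.comp_apply, h1, map_zero]

theorem t_LEMN : P_LEMN := by
  intro p _ X W ι I _ _ T hT κ Θ b π hΘ hπ A B C hTri f hf L hL hc
  classical
  obtain ⟨c, hc, hcL⟩ := hc
  obtain ⟨g, hg, hgc⟩ := mem_iSup_finsupp C hc
  obtain ⟨φ, hφ1, hφ2⟩ := exists_phi (Submodule.span (ZMod p) (Set.range f)) L hL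
  have hfx : ∀ x, f x = ∑ i ∈ g.support, φ (g i x) := by
    intro x
    have h1 : φ (f x) = f x := hφ1 _ (Submodule.subset_span ⟨x, rfl⟩)
    have h2 : φ (f x - c x) = 0 := hφ2 _ (hcL x)
    rw [map_sub, sub_eq_zero] at h2
    rw [← h1, h2, ← hgc, Finsupp.sum, Finset.sum_apply, map_sum]
  set fj : ι → X → ZMod p := fun j x => b.repr (f x) j with hfj
  set r : I → ι → X → ZMod p := fun i j x => b.repr (φ (g i x)) j with hr
  have hrB : ∀ i j, r i j ∈ B i := fun i j =>
    (hTri i).comp (g i) (hg i) (fun w => b.repr (φ w) j)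
  have hfr : ∀ j, fj j = ∑ i ∈ g.support, r i j := by
    intro j
    funext x
    rw [hfj, Finset.sum_apply]
    simp only [hr]
    rw [hfx x, map_sum, Finsupp.finsetSum_apply]
  have hfin : (Set.range f).Finite := hf.2
  have main : ∀ j, ∃ s : I → X → ZMod p, (∀ i ∈ g.support.filter (fun i => b j ∈ A i), s i ∈ B i) ∧
      fj j = ∑ i ∈ g.support.filter (fun i => b j ∈ A i), s i := by
    intro j
    set G : Finset W := hfin.toFinset.filter (fun t => b.repr t j ≠ 0) with hG
    have hz : Θ G (fj j) = 0 := by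
      refine hΘ.zero G (fj j) ?_
      intro x hx
      refine ⟨f x, ?_, hf.1 x⟩
      rw [hG, Finset.mem_filter, Set.Finite.mem_toFinset]
      exact ⟨⟨x, rfl⟩, hx⟩
    refine ⟨fun i => r i j - Θ G (r i j), ?_, ?_⟩
    · intro i hi
      rw [Finset.mem_filter] at hi
      refine (B i).sub_mem (hrB i j) ?_
      have h1 := hΘ.loc (A i) (B i) (hTri i).pair (r i j) (hrB i j) G
        (G.filter (fun w => w ∈ A i)) (by
          intro w hw
          constructor
          · intro h
            exact Finset.mem_filter.mpr ⟨h, hw⟩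
          · intro h
            exact (Finset.mem_filter.mp h).1)
      rw [h1]
      refine (hTri i).th _ ?_ _ (hrB i j)
      intro w hw
      have : w ∈ G.filter (fun w => w ∈ A i) := hw
      rw [Finset.mem_filter] at this
      exact this.2
    · have e1 : fj j = fj j - Θ G (fj j) := by rw [hz, sub_zero]
      rw [e1]
      conv_lhs => rw [hfr j]
      rw [map_sum, ← Finset.sum_sub_distrib]
      symm
      apply Finset.sum_subset (Finset.filter_subset _ _)
      intro i hi hni
      have hbj : b j ∉ A i := fun h => hni (Finset.mem_filter.mpr ⟨hi, h⟩)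
      have h1 := hΘ.loc (A i) (B i) (hTri i).pair (r i j) (hrB i j) G ∅ (by
        intro w hw
        constructor
        · intro h
          rw [hG, Finset.mem_filter] at h
          exact absurd ((hTri i).sup w hw j h.2) hbj
        · intro h
          simp at h)
      rw [h1, hΘ.one, sub_self]
  -- each component lies in the supremum
  have comp : ∀ j, π (fun x => fj j x • b j) ∈ ⨆ i, C i := by
    intro j
    obtain ⟨s, hs1, hs2⟩ := main j
    have e : (fun x => fj j x • b j) =
        ∑ i ∈ g.support.filter (fun i => b j ∈ A i), (fun x => s i x • b j) := by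
      funext x
      rw [Finset.sum_apply, hs2, Finset.sum_apply, Finset.sum_smul]
    rw [e, map_sum]
    refine AddSubgroup.sum_mem _ ?_
    intro i hi
    have hi' := (Finset.mem_filter.mp hi).2
    exact (le_iSup C i) ((hTri i).back (s i) (hs1 i hi) j hi')
  set J : Finset ι := hfin.toFinset.biUnion (fun t => (b.repr t).support) with hJ
  have hfJ : f = ∑ j ∈ J, fun x => fj j x • b j := by
    funext x
    rw [Finset.sum_apply]
    have h1 : ∑ j ∈ (b.repr (f x)).support, (b.repr (f x)) j • b j = f x := by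
      have := b.linearCombination_repr (f x)
      rw [Finsupp.linearCombination_apply, Finsupp.sum] at this
      exact this
    rw [← h1]
    simp only [hfj]
    have hsub : (b.repr (f x)).support ⊆ J := by
      intro j hj
      rw [hJ, Finset.mem_biUnion]
      exact ⟨f x, by simp, hj⟩
    rw [h1]
    conv_lhs => rw [← h1]
    apply Finset.sum_subset hsub
    intro j _ hj
    rw [Finsupp.notMem_support_iff] at hj
    rw [hj, zero_smul]
  rw [← hπ f hf, hfJ, map_sum]
  exact AddSubgroup.sum_mem _ (fun j _ => comp j)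

end Pool.Agent.Q87.TM
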