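import Pool.Agent.TH54.BU.BurnDef
import Mathlib

/-!
Free Burnside groups of infinite rank, with the discrete topology, are not minimal.
-/

set_option autoImplicit false

namespace Pool.Agent.Q87.TM

open Filter Topology Pool.Agent.TH54.BU

/-- there is no strictly coarser Hausdorff group topology -/
def Minimal (G : Type*) [Group G] (τ : TopologicalSpace G) : Prop :=
  ∀ σ : TopologicalSpace G, @IsTopologicalGroup G σ _ → @T2Space G σ → τ ≤ σ → σ = τ

variable {I : Type} {p : ℕ}

/-- the free group of exponent `p` -/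
abbrev BB (I : Type) (p : ℕ) : Type := FreeGroup I ⧸ powSub (FreeGroup I) p

/-- the generators -/
def gn (p : ℕ) (i : I) : BB I p := (FreeGroup.of i : FreeGroup I)

theorem pow_eq_one (b : BB I p) : b ^ p = 1 := by
  obtain ⟨g, rfl⟩ := QuotientGroup.mk_surjective b
  rw [← QuotientGroup.mk_pow, QuotientGroup.eq_one_iff]
  exact Subgroup.subset_normalClosure ⟨g, rfl⟩

/-- the universal property -/
def lft {K : Type*} [Group K] (hK : ∀ k : K, k ^ p = 1) (f : I → K) : BB I p →* K :=
  QuotientGroup.lift _ (FreeGroup.lift f) (by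
    have h : powSub (FreeGroup I) p ≤ (FreeGroup.lift f).ker := by
      unfold powSub
      refine Subgroup.normalClosure_le_normal ?_
      rintro _ ⟨g, rfl⟩
      show (FreeGroup.lift f) (g ^ p) = 1
      rw [map_pow, hK]
    exact fun x hx => h hx)

theorem lft_gn {K : Type*} [Group K] (hK : ∀ k : K, k ^ p = 1) (f : I → K) (i : I) :
    lft hK f (gn p i) = f i := by
  unfold lft gn
  rw [QuotientGroup.lift_mk, FreeGroup.lift_apply_of]

theorem gn_ne_one (hp : 1 < p) (i : I) : gn p i ≠ 1 := by
  intro h
  have hK : ∀ k : Multiplicative (ZMod p), k ^ p = 1 := by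
    intro k
    rw [← ofAdd_toAdd k, ← ofAdd_nsmul]
    simp
  have h1 := lft_gn hK (fun _ : I => Multiplicative.ofAdd (1 : ZMod p)) i
  rw [h, map_one] at h1
  have h2 : (0 : ZMod p) = 1 := Multiplicative.ofAdd.injective h1
  have : Fact (1 < p) := ⟨hp⟩
  exact zero_ne_one h2

open Classical in
/-- the retraction to the subgroup generated by the letters of `F` -/
noncomputable def rt (F : Finset I) : BB I p →* BB I p :=
  lft pow_eq_one fun i => if i ∈ F then gn p i else 1

theorem rt_gn_mem {F : Finset I} {i : I} (h : i ∈ F) : rt F (gn p i) = gn p i := by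
  unfold rt
  rw [lft_gn, if_pos h]

theorem rt_gn_notMem {F : Finset I} {i : I} (h : i ∉ F) : rt F (gn p i) = 1 := by
  unfold rt
  rw [lft_gn, if_neg h]

open Classical in
theorem exists_rt (b : BB I p) : ∃ F : Finset I, ∀ F', F ⊆ F' → rt F' b = b := by
  obtain ⟨w, rfl⟩ := QuotientGroup.mk_surjective b
  induction w using FreeGroup.induction_on with
  | C1 => exact ⟨∅, fun F' _ => map_one _⟩
  | of i => exact ⟨{i}, fun F' h => rt_gn_mem (h (Finset.mem_singleton_self i))⟩
  | inv_of i h =>
    refine ⟨{i}, fun F' h => ?_⟩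
    have h1 : rt F' (gn p i) = gn p i := rt_gn_mem (h (Finset.mem_singleton_self i))
    show rt F' ((gn p i)⁻¹) = (gn p i)⁻¹
    rw [map_inv, h1]
  | mul x y hx hy =>
    obtain ⟨F1, h1⟩ := hx
    obtain ⟨F2, h2⟩ := hy
    refine ⟨F1 ∪ F2, fun F' h => ?_⟩
    rw [QuotientGroup.mk_mul, map_mul, h1 F' (Finset.union_subset_left h),
      h2 F' (Finset.union_subset_right h)]

/-- the discrete copy of the free Burnside group -/
def DB (I : Type) (p : ℕ) : Type := BB I p

instance : Group (DB I p) := inferInstanceAs (Group (BB I p))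
instance : TopologicalSpace (DB I p) := ⊥
instance : DiscreteTopology (DB I p) := ⟨rfl⟩

/-- the embedding in the product -/
noncomputable def Ph (I : Type) (p : ℕ) : BB I p →* (Finset I → DB I p) :=
  MonoidHom.pi fun F => (rt F : BB I p →* BB I p)

theorem Ph_injective : Function.Injective (Ph I p) := by
  classical
  intro b b' h
  obtain ⟨F1, h1⟩ := exists_rt b
  obtain ⟨F2, h2⟩ := exists_rt b'
  have h3 := congrFun h (F1 ∪ F2)
  have h4 : rt (F1 ∪ F2) b = rt (F1 ∪ F2) b' := h3
  rwa [h1 _ Finset.subset_union_left, h2 _ Finset.subset_union_right] at h4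

theorem Ph_tendsto : Tendsto (fun i : I => Ph I p (gn p i)) cofinite (𝓝 1) := by
  rw [tendsto_pi_nhds]
  intro F
  refine tendsto_nhds_of_eventually_eq ?_
  have h1 : ∀ᶠ i : I in cofinite, i ∉ F := F.finite_toSet.eventually_cofinite_notMem
  filter_upwards [h1] with i hi
  exact rt_gn_notMem hi

/-- a discrete group with an injective homomorphism in a Hausdorff group which is not discrete on
the image is not minimal -/
theorem not_minimal_of {Q : Type*} [Group Q] {K : Type*} [Group K] [TopologicalSpace K]
    [IsTopologicalGroup K] [T2Space K] (Φ : Q →* K) (hinj : Function.Injective Φ) {l : Filter I}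
    [l.NeBot] (x : I → Q) (hx : ∀ i, x i ≠ 1) (ht : Tendsto (fun i => Φ (x i)) l (𝓝 1)) :
    ¬ Minimal Q ⊥ := by
  intro h
  have h1 : @IsTopologicalGroup Q (TopologicalSpace.induced Φ inferInstance) _ :=
    topologicalGroup_induced Φ
  have h2 : @T2Space Q (TopologicalSpace.induced Φ inferInstance) := by
    let _ : TopologicalSpace Q := TopologicalSpace.induced Φ inferInstance
    exact T2Space.of_injective_continuous hinj continuous_induced_dom
  have h3 := h _ h1 h2 bot_le
  have h4 : Tendsto x l (@nhds Q (TopologicalSpace.induced Φ inferInstance) 1) := by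
    rw [nhds_induced, tendsto_comap_iff, map_one]
    exact ht
  rw [h3] at h4
  rw [@nhds_discrete Q ⊥ (discreteTopology_bot Q)] at h4
  have h5 : ∀ᶠ i in l, x i = 1 := by
    have := h4 (mem_pure.2 rfl : ({1} : Set Q) ∈ (pure 1 : Filter Q))
    exact this
  obtain ⟨i, hi⟩ := h5.exists
  exact hx i hi

/-- the quotient of a topological group by an open normal subgroup, isomorphic to a free Burnside
group of infinite rank, is not minimal -/
theorem quot_not_minimal [Infinite I] (hp : 1 < p) {H : Type*} [Group H] [TopologicalSpace H]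
    [IsTopologicalGroup H] (N : Subgroup H) [N.Normal] (hN : IsOpen (N : Set H)) (π : H →* BB I p)
    (hs : Function.Surjective π) (hker : π.ker = N) :
    ¬ Minimal (H ⧸ N) (QuotientGroup.instTopologicalSpace N) := by
  have hd : (QuotientGroup.instTopologicalSpace N : TopologicalSpace (H ⧸ N)) = ⊥ :=
    (QuotientGroup.discreteTopology hN).eq_bot
  rw [hd]
  have hle : N ≤ π.ker := hker.ge
  set ψ : H ⧸ N →* BB I p := QuotientGroup.lift N π hle with hψ
  have hψi : Function.Injective ψ := by
    rw [injective_iff_map_eq_one]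
    intro q hq
    obtain ⟨g, rfl⟩ := QuotientGroup.mk_surjective q
    rw [QuotientGroup.eq_one_iff, ← hker]
    rwa [hψ, QuotientGroup.lift_mk] at hq
  choose y hy using fun i : I => hs (gn p i)
  refine not_minimal_of ((Ph I p).comp ψ) (Ph_injective.comp hψi) (l := cofinite)
    (fun i : I => (y i : H ⧸ N)) ?_ ?_
  · intro i h
    apply gn_ne_one hp i
    have h1 : ψ (y i : H ⧸ N) = π (y i) := rfl
    rw [← hy i, ← h1, h, map_one]
  · have h1 : ∀ i, ((Ph I p).comp ψ) ((y i : H ⧸ N)) = Ph I p (gn p i) := by
      intro i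
      rw [MonoidHom.comp_apply, hψ, QuotientGroup.lift_mk, hy]
    simp only [h1]
    exact Ph_tendsto

end Pool.Agent.Q87.TM
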