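import Pool.Agent.Q28.TM.Stm

/-!
# Job SOC of project TM (helper28)
-/

set_option autoImplicit false

namespace Pool.Agent.Q87.TM

open Pool.Agent.Q28.TM Pool.Agent.Helper316

theorem exists_small {p : ℕ} [Fact p.Prime] {X W : Type} [AddCommGroup W] [Module (ZMod p) W]
    (Wn : ℕ → Submodule (ZMod p) W) (hanti : Antitone Wn) (hW : ∀ w, (∀ n, w ∈ Wn n) → w = 0)
    (f : X → W) (hf : (Set.range f).Finite) :
    ∃ n, ∀ t ∈ Submodule.span (ZMod p) (Set.range f), t ∈ Wn n → t = 0 := by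
  classical
  have hfin : ((Submodule.span (ZMod p) (Set.range f) : Submodule (ZMod p) W) : Set W).Finite := by
    haveI : Module.Finite (ZMod p) (Submodule.span (ZMod p) (Set.range f)) :=
      Module.Finite.span_of_finite (ZMod p) hf
    haveI : Finite (Submodule.span (ZMod p) (Set.range f)) := Module.finite_of_finite (ZMod p)
    exact Set.toFinite _
  have hex : ∀ t : W, ∃ n, t ∈ Wn n → t = 0 := by
    intro t
    by_contra h
    push Not at h
    have h0 := hW t (fun n => (h n).1)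
    exact (h 0).2 h0
  choose m hm using hex
  refine ⟨hfin.toFinset.sup m, ?_⟩
  intro t ht htn
  refine hm t (hanti (Finset.le_sup (f := m) ?_) htn)
  rw [Set.Finite.mem_toFinset]
  exact ht

theorem t_SOC (h1 : P_KAP) (h2 : P_THETA) (h3 : P_LEMN) (h4 : P_CLO) (h5 : P_CHAIN) : P_SOC := by
  intro p _ X W _ _ T Wn hT hanti hW
  classical
  obtain ⟨κ, hκ⟩ := h1 X W (ZMod p) (fun x => (T x : Set W))
  obtain ⟨Θ, hΘ⟩ := h2 X W (ZMod p) (fun x => (T x : Set W)) hT κ hκ
  set b := Module.Basis.ofVectorSpace (ZMod p) W with hb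
  set FnS : Submodule (ZMod p) (X → W) := AddSubgroup.toZModSubmodule p (Fn T) with hFnS
  have hmemF : ∀ f, f ∈ FnS ↔ f ∈ Fn T := fun f => AddSubgroup.mem_toZModSubmodule p
  obtain ⟨g, hg⟩ := LinearMap.exists_leftInverse_of_injective FnS.subtype
    (Submodule.ker_subtype _)
  set π : (X → W) →ₗ[ZMod p] (X → W) := FnS.subtype ∘ₗ g with hπ
  have hπF : ∀ f, π f ∈ Fn T := fun f => (hmemF _).mp (g f).2
  have hπid : ∀ f ∈ Fn T, π f = f := by
    intro f hf
    have := LinearMap.congr_fun hg ⟨f, (hmemF f).mpr hf⟩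
    have h : g f = ⟨f, (hmemF f).mpr hf⟩ := this
    rw [hπ, LinearMap.comp_apply, h]
    rfl
  obtain ⟨F, hFc, hF⟩ := h4 p X W _ T κ Θ b π hπF
  -- the closed sets
  set E : FnS → Set (W ⊕ ((X → ZMod p) ⊕ (X → W))) :=
    fun a => FCV.cl F {Sum.inr (Sum.inr a.1)} with hE
  have hEcl : ∀ a, FCV.Closed F (E a) := fun a => FCV.cl_closed _
  have hEc : ∀ a, (E a).Countable := by
    intro a
    have := FCV.mk_cl_le hFc {Sum.inr (Sum.inr a.1)}
    rw [Cardinal.mk_singleton] at this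
    rw [← Cardinal.le_aleph0_iff_set_countable]
    exact this.trans (max_le le_rfl Cardinal.one_le_aleph0)
  choose B C hTri hC using fun a => hF (E a) (hEcl a)
  set D : FnS → Submodule (ZMod p) FnS :=
    fun a => (AddSubgroup.toZModSubmodule p (C a)).comap FnS.subtype with hD
  have hmemD : ∀ (a v : FnS), v ∈ D a ↔ (v : X → W) ∈ C a := by
    intro a v
    rw [hD, Submodule.mem_comap, AddSubgroup.mem_toZModSubmodule]
    rfl
  set Vn : ℕ → Submodule (ZMod p) FnS := fun n =>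
    { carrier := {f | ∀ x, f.1 x ∈ Wn n}
      zero_mem' := fun x => (Wn n).zero_mem
      add_mem' := fun {f g} hf hg x => (Wn n).add_mem (hf x) (hg x)
      smul_mem' := fun c f hf x => (Wn n).smul_mem c (hf x) } with hVn
  have hmemV : ∀ (n : ℕ) (f : FnS), f ∈ Vn n ↔ ∀ x, f.1 x ∈ Wn n := fun n f => Iff.rfl
  obtain ⟨r, hr⟩ := exists_wellOrder FnS
  have hle : ∀ a : FnS, ∀ (ι : Type) (c : ι → FnS), (⨆ b, D (c b)) ≤
      (AddSubgroup.toZModSubmodule p (⨆ b, C (c b))).comap FnS.subtype := by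
    intro a ι c
    refine iSup_le ?_
    intro b v hv
    rw [Submodule.mem_comap, AddSubgroup.mem_toZModSubmodule]
    exact (le_iSup (fun b => C (c b)) b) ((hmemD _ _).mp hv)
  have hge : ∀ (ι : Type) (c : ι → FnS) (v : FnS), (v : X → W) ∈ ⨆ b, C (c b) →
      v ∈ ⨆ b, D (c b) := by
    intro ι c v hv
    have hle2 : (⨆ b, C (c b)) ≤ ((⨆ b, D (c b)).map FnS.subtype).toAddSubgroup := by
      refine iSup_le ?_
      intro b f hf
      have hfF : f ∈ Fn T := ((hC (c b) f).mp hf).1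
      refine ⟨⟨f, (hmemF f).mpr hfF⟩, ?_, rfl⟩
      exact (le_iSup (fun b => D (c b)) b) ((hmemD _ _).mpr hf)
    obtain ⟨v', hv', hvv⟩ := hle2 hv
    have : v' = v := Subtype.ext hvv
    rw [← this]
    exact hv'
  obtain ⟨S, hSm, hSc, hS0⟩ := @h5 p _ FnS FnS _ _ r hr Vn D
    (by
      intro m n hmn f hf x
      exact hanti hmn (hf x))
    (by
      intro a
      have hinj : Function.Injective
          (fun v : FnS => (Sum.inr (Sum.inr v.1) : W ⊕ ((X → ZMod p) ⊕ (X → W)))) := by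
        intro v w h
        exact Subtype.ext (Sum.inr_injective (Sum.inr_injective h))
      refine Set.Countable.mono ?_ ((hEc a).preimage hinj)
      intro v hv
      exact ((hC a v.1).mp ((hmemD a v).mp hv)).2)
    (by
      intro v
      refine ⟨v, (hmemD v v).mpr ((hC v v.1).mpr ⟨(hmemF _).mp v.2, ?_⟩)⟩
      exact FCV.subset_cl _ rfl)
    (by
      intro a v hv
      obtain ⟨n, hn⟩ := exists_small Wn hanti hW v.1 ((hmemF _).mp v.2).2
      obtain ⟨u, hu, huv⟩ := hv n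
      have hu' : (u : X → W) ∈ ⨆ b : {b : FnS // r.lt b a}, C b.1 := by
        have := hle a _ (fun b : {b : FnS // r.lt b a} => b.1) hu
        rw [Submodule.mem_comap, AddSubgroup.mem_toZModSubmodule] at this
        exact this
      have hmain := h3 p X W _ {b : FnS // r.lt b a} T hT κ Θ b π hΘ hπid
        (fun b => {w | Sum.inl w ∈ E b.1}) (fun b => B b.1) (fun b => C b.1)
        (fun b => hTri b.1) v.1 ((hmemF _).mp v.2) (Wn n) hn ⟨u.1, hu', huv⟩
      exact hge _ (fun b : {b : FnS // r.lt b a} => b.1) v hmain)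
  refine ⟨fun n => ((S n).map FnS.subtype).toAddSubgroup, ?_, ?_, ?_, ?_⟩
  · intro m n hmn f hf
    obtain ⟨v, hv, hvf⟩ := hf
    exact ⟨v, hSm hmn hv, hvf⟩
  · rintro n f ⟨v, hv, rfl⟩
    exact (hmemF _).mp v.2
  · intro f hf
    obtain ⟨n, hn⟩ := hSc ⟨f, (hmemF f).mpr hf⟩
    exact ⟨n, ⟨⟨f, (hmemF f).mpr hf⟩, hn, rfl⟩⟩
  · rintro n f ⟨v, hv, rfl⟩ hx
    have := hS0 n v hv hx
    rw [this]
    rfl

end Pool.Agent.Q87.TM
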