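import Pool.Agent.Q28.TM.Stm

/-!
# Job THETA of project TM (helper28)
-/

set_option autoImplicit false

namespace Pool.Agent.Q87.TM

open Pool.Agent.Q28.TM

section

variable {X W K : Type} [Field K]

theorem ind_pos {T : X → Set W} {F : Finset W} (r : X → K) {x : X} (h : (F : Set W) ⊆ T x) :
    ind T F r x = r x := by
  simp [ind, h]

theorem ind_neg {T : X → Set W} {F : Finset W} (r : X → K) {x : X} (h : ¬ (F : Set W) ⊆ T x) :
    ind T F r x = 0 := by
  simp [ind, h]

open Classical in
/-- the recursively defined operators -/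
noncomputable def Psi (κ : Finset W → (X → K) →ₗ[K] (X → K)) (F : Finset W) :
    (X → K) →ₗ[K] (X → K) :=
  κ F ∘ₗ (LinearMap.id - ∑ F' ∈ F.ssubsets.attach, Psi κ F'.1)
termination_by F.card
decreasing_by exact Finset.card_lt_card (Finset.mem_ssubsets.mp F'.2)

open Classical in
theorem Psi_apply (κ : Finset W → (X → K) →ₗ[K] (X → K)) (F : Finset W) (r : X → K) :
    Psi κ F r = κ F (r - ∑ F' ∈ F.ssubsets, Psi κ F' r) := by
  conv_lhs => rw [Psi]
  rw [LinearMap.comp_apply, LinearMap.sub_apply, LinearMap.id_apply, LinearMap.sum_apply,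
    Finset.sum_attach F.ssubsets (fun F' => Psi κ F' r)]

open Classical in
theorem Psi_sum {T : X → Set W} {κ : Finset W → (X → K) →ₗ[K] (X → K)} (hκ : KapOK T κ)
    (r : X → K) (x : X) (F : Finset W) (hF : (F : Set W) = T x) :
    ∑ F' ∈ F.powerset, Psi κ F' r x = r x := by
  have hmem : F ∈ F.powerset := Finset.mem_powerset_self F
  rw [← Finset.add_sum_erase _ _ hmem]
  have e : F.powerset.erase F = F.ssubsets := rfl
  rw [e, Psi_apply]
  obtain ⟨H, h1, h2⟩ := (hκ F).1 (r - ∑ F' ∈ F.ssubsets, Psi κ F' r)
  have h3 : (ind T F (r - ∑ F' ∈ F.ssubsets, Psi κ F' r) -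
      κ F (r - ∑ F' ∈ F.ssubsets, Psi κ F' r)) x = 0 := by
    by_contra hne
    obtain ⟨_, t, ht, htx⟩ := h2 x hne
    rw [← hF] at htx
    exact h1 t ht htx
  rw [Pi.sub_apply, ind_pos _ hF.le, Pi.sub_apply, Finset.sum_apply] at h3
  linear_combination -h3

open Classical in
theorem Psi_b {T : X → Set W} {κ : Finset W → (X → K) →ₗ[K] (X → K)} (hκ : KapOK T κ)
    (G : Finset W) (r : X → K) (hr : ∀ x, r x ≠ 0 → ∃ g ∈ G, g ∈ T x) :
    ∀ F : Finset W, Disjoint F G → Psi κ F r = 0 := by
  intro F
  induction F using Finset.strongInduction with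
  | H F ih =>
    intro hF
    have h0 : ∑ F' ∈ F.ssubsets, Psi κ F' r = 0 :=
      Finset.sum_eq_zero (fun F' hF' => ih F' (Finset.mem_ssubsets.mp hF')
        (hF.mono_left (Finset.mem_ssubsets.mp hF').1))
    rw [Psi_apply, h0, sub_zero]
    refine (hκ F).2 r ⟨G, ?_, ?_⟩
    · intro t ht htF
      exact Finset.disjoint_left.mp hF htF ht
    · intro x hx
      by_cases h : (F : Set W) ⊆ T x
      · rw [ind_pos _ h] at hx
        exact ⟨h, hr x hx⟩
      · rw [ind_neg _ h] at hx
        exact absurd rfl hx

open Classical in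
theorem Psi_c {T : X → Set W} {κ : Finset W → (X → K) →ₗ[K] (X → K)} (hκ : KapOK T κ)
    (A : Set W) (B : AddSubgroup (X → K)) (hp : PairOK T κ A B) (r : X → K) (hr : r ∈ B) :
    ∀ F : Finset W, ((F : Set W) ⊆ A → Psi κ F r ∈ B) ∧ (¬ (F : Set W) ⊆ A → Psi κ F r = 0) := by
  intro F
  induction F using Finset.strongInduction with
  | H F ih =>
    constructor
    · intro hF
      rw [Psi_apply]
      refine hp.kap F hF _ (B.sub_mem hr (B.sum_mem ?_))
      intro F' hF'
      have h1 := Finset.mem_ssubsets.mp hF'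
      exact (ih F' h1).1 ((Finset.coe_subset.mpr h1.1).trans hF)
    · intro hF
      set F0 : Finset W := F.filter (fun w => w ∈ A) with hF0
      have hsub : F0 ⊆ F := Finset.filter_subset _ _
      have hss : F0 ⊂ F := by
        refine ⟨hsub, ?_⟩
        intro h
        apply hF
        intro w hw
        have := h (Finset.mem_coe.mp hw)
        rw [hF0, Finset.mem_filter] at this
        exact this.2
      have hF0A : (F0 : Set W) ⊆ A := by
        intro w hw
        have : w ∈ F0 := hw
        rw [hF0, Finset.mem_filter] at this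
        exact this.2
      have e1 : ∑ F' ∈ F.ssubsets, Psi κ F' r = ∑ F' ∈ F0.powerset, Psi κ F' r := by
        symm
        apply Finset.sum_subset
        · intro F' hF'
          rw [Finset.mem_powerset] at hF'
          rw [Finset.mem_ssubsets]
          exact lt_of_le_of_lt hF' hss
        · intro F' hF' hnF'
          rw [Finset.mem_ssubsets] at hF'
          refine (ih F' hF').2 ?_
          intro hA
          apply hnF'
          rw [Finset.mem_powerset]
          intro w hw
          rw [hF0, Finset.mem_filter]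
          exact ⟨hF'.1 hw, hA hw⟩
      have e2 : ∑ F' ∈ F0.powerset, Psi κ F' r =
          Psi κ F0 r + ∑ F' ∈ F0.ssubsets, Psi κ F' r :=
        (Finset.add_sum_erase _ _ (Finset.mem_powerset_self F0)).symm
      set u0 : X → K := r - ∑ F' ∈ F0.ssubsets, Psi κ F' r with hu0
      have hu0B : u0 ∈ B := by
        refine B.sub_mem hr (B.sum_mem ?_)
        intro F' hF'
        have h1 := Finset.mem_ssubsets.mp hF'
        refine (ih F' (lt_trans h1 hss)).1 ((Finset.coe_subset.mpr h1.1).trans hF0A)
      have e3 : r - ∑ F' ∈ F.ssubsets, Psi κ F' r = u0 - κ F0 u0 := by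
        rw [e1, e2, Psi_apply κ F0 r, ← hu0, hu0]
        abel
      rw [Psi_apply, e3]
      have hu1 : ind T F0 u0 - κ F0 u0 ∈ B := B.sub_mem (hp.cut F0 hF0A u0 hu0B)
        (hp.kap F0 hF0A u0 hu0B)
      obtain ⟨H, hHA, hH1, hH2⟩ := hp.wit F0 hF0A _ hu1 ((hκ F0).1 u0)
      refine (hκ F).2 _ ⟨H, ?_, ?_⟩
      · intro t ht htF
        refine hH1 t ht ?_
        rw [hF0, Finset.mem_filter]
        exact ⟨htF, hHA ht⟩
      · intro x hx
        by_cases h : (F : Set W) ⊆ T x
        · refine ⟨h, ?_⟩
          rw [ind_pos _ h] at hx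
          have h' : (F0 : Set W) ⊆ T x := (Finset.coe_subset.mpr hsub).trans h
          refine (hH2 x ?_).2
          rw [Pi.sub_apply, ind_pos _ h']
          exact hx
        · rw [ind_neg _ h] at hx
          exact absurd rfl hx

open Classical in
/-- the operators `Θ` -/
noncomputable def Th (T : X → Set W) (hT : ∀ x, (T x).Finite)
    (κ : Finset W → (X → K) →ₗ[K] (X → K)) (G : Finset W) : (X → K) →ₗ[K] (X → K) where
  toFun r := fun x => ∑ F ∈ (hT x).toFinset.powerset.filter (fun F => Disjoint F G),
    Psi κ F r x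
  map_add' r s := by
    funext x
    simp [Finset.sum_add_distrib]
  map_smul' c r := by
    funext x
    simp [Finset.mul_sum]

end

theorem t_THETA : P_THETA := by
  intro X W K _ T hT κ hκ
  classical
  refine ⟨Th T hT κ, ?_, ?_, ?_⟩
  · intro G r hr
    funext x
    change ∑ F ∈ (hT x).toFinset.powerset.filter (fun F => Disjoint F G), Psi κ F r x = 0
    refine Finset.sum_eq_zero ?_
    intro F hF
    rw [Finset.mem_filter] at hF
    rw [Psi_b hκ G r hr F hF.2]
    rfl
  · intro r
    funext x
    change ∑ F ∈ (hT x).toFinset.powerset.filter (fun F => Disjoint F ∅), Psi κ F r x = r x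
    rw [Finset.filter_true_of_mem (fun F _ => Finset.disjoint_empty_right F)]
    exact Psi_sum hκ r x _ (by simp)
  · intro A B hp r hr G G' hGG
    funext x
    change ∑ F ∈ (hT x).toFinset.powerset.filter (fun F => Disjoint F G), Psi κ F r x =
      ∑ F ∈ (hT x).toFinset.powerset.filter (fun F => Disjoint F G'), Psi κ F r x
    rw [Finset.sum_filter, Finset.sum_filter]
    refine Finset.sum_congr rfl ?_
    intro F _
    by_cases hFA : (F : Set W) ⊆ A
    · have : Disjoint F G ↔ Disjoint F G' := by
        rw [Finset.disjoint_left, Finset.disjoint_left]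
        constructor
        · intro h w hw hw'
          exact h hw ((hGG w (hFA hw)).mpr hw')
        · intro h w hw hw'
          exact h hw ((hGG w (hFA hw)).mp hw')
      by_cases h : Disjoint F G
      · rw [if_pos h, if_pos (this.mp h)]
      · rw [if_neg h, if_neg (fun h' => h (this.mpr h'))]
    · have h0 : Psi κ F r x = 0 := by
        rw [(Psi_c hκ A B hp r hr F).2 hFA]
        rfl
      rw [h0]
      simp

end Pool.Agent.Q87.TM
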